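import Mathlib

/-!
# Special orthogonal groups are generated by products of two reflections
-/

set_option autoImplicit false



namespace REC

namespace GSOw

variable {K : Type} [Field K] {n : ℕ}

/-- the reflection in the vector `v` -/
noncomputable def rf (J : Matrix (Fin n) (Fin n) K) (v : Fin n → K) : Matrix (Fin n) (Fin n) K :=
  1 - (2 * (v ⬝ᵥ J.mulVec v)⁻¹) • (Matrix.vecMulVec v v * J)

/-- the bilinear form -/
def bf (J : Matrix (Fin n) (Fin n) K) (v w : Fin n → K) : K := v ⬝ᵥ J.mulVec w

lemma bf_add_left (J : Matrix (Fin n) (Fin n) K) (u v w : Fin n → K) :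
    bf J (u + v) w = bf J u w + bf J v w := by
  simp [bf, add_dotProduct]

lemma bf_sub_left (J : Matrix (Fin n) (Fin n) K) (u v w : Fin n → K) :
    bf J (u - v) w = bf J u w - bf J v w := by
  simp [bf, sub_dotProduct]

lemma bf_add_right (J : Matrix (Fin n) (Fin n) K) (u v w : Fin n → K) :
    bf J w (u + v) = bf J w u + bf J w v := by
  simp [bf, Matrix.mulVec_add, dotProduct_add]

lemma bf_sub_right (J : Matrix (Fin n) (Fin n) K) (u v w : Fin n → K) :
    bf J w (u - v) = bf J w u - bf J w v := by
  simp [bf, Matrix.mulVec_sub, dotProduct_sub]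

lemma bf_smul_left (J : Matrix (Fin n) (Fin n) K) (c : K) (v w : Fin n → K) :
    bf J (c • v) w = c * bf J v w := by
  simp [bf]

lemma bf_smul_right (J : Matrix (Fin n) (Fin n) K) (c : K) (v w : Fin n → K) :
    bf J w (c • v) = c * bf J w v := by
  simp [bf, Matrix.mulVec_smul]

lemma bf_symm {J : Matrix (Fin n) (Fin n) K} (hJ : J.transpose = J) (v w : Fin n → K) :
    bf J v w = bf J w v := by
  unfold bf
  rw [Matrix.dotProduct_mulVec, ← Matrix.mulVec_transpose, hJ, dotProduct_comm]

lemma rf_mulVec (J : Matrix (Fin n) (Fin n) K) (v w : Fin n → K) :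
    (rf J v).mulVec w = w - (2 * (bf J v v)⁻¹ * bf J v w) • v := by
  unfold rf bf
  rw [Matrix.sub_mulVec, Matrix.one_mulVec, Matrix.smul_mulVec, ← Matrix.mulVec_mulVec]
  congr 1
  ext i
  simp only [Pi.smul_apply, Matrix.mulVec, Matrix.vecMulVec_apply, dotProduct, smul_eq_mul]
  rw [show (∑ x, v i * v x * ∑ y, J x y * w y) = (∑ x, v x * ∑ y, J x y * w y) * v i by
    rw [Finset.sum_mul]; exact Finset.sum_congr rfl fun x _ => by ring]
  ring

lemma rf_iso {J : Matrix (Fin n) (Fin n) K} (hJ : J.transpose = J) {v : Fin n → K}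
    (hv : bf J v v ≠ 0) (x y : Fin n → K) :
    bf J ((rf J v).mulVec x) ((rf J v).mulVec y) = bf J x y := by
  rw [rf_mulVec, rf_mulVec]
  simp only [bf_sub_left, bf_sub_right, bf_smul_left, bf_smul_right]
  rw [bf_symm hJ x v]
  field_simp
  ring

lemma rf_det {J : Matrix (Fin n) (Fin n) K} (hJ : J.transpose = J) {v : Fin n → K}
    (hv : bf J v v ≠ 0) : (rf J v).det = -1 := by
  have h1 : rf J v = 1 + Matrix.replicateCol (Fin 1) (-(2 * (bf J v v)⁻¹) • v) *
      Matrix.replicateRow (Fin 1) (J.mulVec v) := by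
    unfold rf
    ext i j
    rw [Matrix.sub_apply, Matrix.add_apply, Matrix.smul_apply, Matrix.mul_apply, Matrix.mul_apply]
    simp only [Matrix.vecMulVec_apply, Matrix.replicateCol_apply, Matrix.replicateRow_apply,
      Finset.univ_unique, Finset.sum_singleton, Pi.smul_apply, smul_eq_mul]
    have h2 : ∑ x, v i * v x * J x j = v i * J.mulVec v j := by
      rw [Matrix.mulVec, dotProduct, Finset.mul_sum]
      refine Finset.sum_congr rfl fun x _ => ?_
      have h3 : J x j = J j x := by
        conv_lhs => rw [← hJ]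
        rfl
      rw [h3]
      ring
    rw [h2]
    unfold bf
    ring
  have h4 : (Matrix.replicateRow (Fin 1) (J.mulVec v) *
      Matrix.replicateCol (Fin 1) (-(2 * (bf J v v)⁻¹) • v)) 0 0 = -2 := by
    rw [Matrix.mul_apply]
    simp only [Matrix.replicateCol_apply, Matrix.replicateRow_apply, Pi.smul_apply, smul_eq_mul]
    have h5 : ∑ j, J.mulVec v j * (-(2 * (bf J v v)⁻¹) * v j) =
        -(2 * (bf J v v)⁻¹) * bf J v v := by
      unfold bf
      rw [dotProduct, Finset.mul_sum]
      exact Finset.sum_congr rfl fun x _ => by ring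
    rw [h5]
    field_simp
  rw [h1, Matrix.det_one_add_mul_comm, Matrix.det_fin_one, Matrix.add_apply, h4,
    Matrix.one_apply_eq]
  norm_num

lemma rf_rf {J : Matrix (Fin n) (Fin n) K} {v : Fin n → K}
    (hv : bf J v v ≠ 0) : rf J v * rf J v = 1 := by
  apply Matrix.mulVec_injective
  funext w
  rw [← Matrix.mulVec_mulVec, Matrix.one_mulVec, rf_mulVec, rf_mulVec, bf_sub_right, bf_smul_right]
  have h : (2 * (bf J v v)⁻¹ * (bf J v w - 2 * (bf J v v)⁻¹ * bf J v w * bf J v v)) =
      -(2 * (bf J v v)⁻¹ * bf J v w) := by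
    field_simp
    ring
  rw [h]
  ext i
  simp

/-- products of reflections -/
lemma main (h2 : (2 : K) ≠ 0) {J : Matrix (Fin n) (Fin n) K} (hJ : J.transpose = J) {N : ℕ}
    (e : Module.Basis (Fin N) K (Fin n → K)) (he : ∀ i j, i ≠ j → bf J (e i) (e j) = 0)
    (he0 : ∀ i, bf J (e i) (e i) ≠ 0) (d : ℕ) :
    ∀ k : ℕ, k + d = N → ∀ σ : Matrix (Fin n) (Fin n) K,
      (∀ x y, bf J (σ.mulVec x) (σ.mulVec y) = bf J x y) →
      (∀ j : Fin N, j.val < k → σ.mulVec (e j) = e j) →
      ∃ L : List (Fin n → K), (∀ v ∈ L, bf J v v ≠ 0) ∧ σ = (L.map (rf J)).prod := by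
  induction d with
  | zero =>
    intro k hk σ _ hfix
    refine ⟨[], by simp, ?_⟩
    apply Matrix.mulVec_injective
    have h : σ.mulVecLin = LinearMap.id := by
      apply e.ext
      intro j
      simpa using hfix j (by have := j.2; omega)
    funext w
    have := LinearMap.congr_fun h w
    simpa using this
  | succ d ih =>
    intro k hk σ hσ hfix
    have hkN : k < N := by omega
    set v : Fin n → K := e ⟨k, hkN⟩ with hv
    have hvv : bf J v v ≠ 0 := he0 _
    have hvj : ∀ j : Fin N, j.val < k → bf J v (e j) = 0 := fun j hj => by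
      apply he
      intro h
      have : k = j.val := congrArg Fin.val h
      omega
    have hsj : ∀ j : Fin N, j.val < k → bf J (σ.mulVec v) (e j) = 0 := fun j hj => by
      conv_lhs => rw [← hfix j hj]
      rw [hσ, hvj j hj]
    have hss : bf J (σ.mulVec v) (σ.mulVec v) = bf J v v := hσ v v
    have hsv : bf J v (σ.mulVec v) = bf J (σ.mulVec v) v := bf_symm hJ _ _
    by_cases hw : bf J (σ.mulVec v - v) (σ.mulVec v - v) = 0
    · -- two reflections
      set w : Fin n → K := σ.mulVec v + v with hwd
      have hww : bf J w w ≠ 0 := by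
        have h1 : bf J w w = 4 * bf J v v := by
          simp only [bf_sub_left, bf_sub_right] at hw
          rw [hwd]
          simp only [bf_add_left, bf_add_right]
          rw [hss, hsv] at *
          linear_combination -hw
        rw [h1]
        have h4 : (4 : K) ≠ 0 := by
          have : (4 : K) = 2 * 2 := by norm_num
          rw [this]
          exact mul_ne_zero h2 h2
        exact mul_ne_zero h4 hvv
      have hcoef : 2 * (bf J w w)⁻¹ * bf J w (σ.mulVec v) = 1 := by
        have h1 : bf J w w = 2 * bf J w (σ.mulVec v) := by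
          rw [hwd]
          simp only [bf_add_left, bf_add_right]
          rw [hss, hsv]
          ring
        have h3 : bf J w (σ.mulVec v) ≠ 0 := by
          intro h
          rw [h1, h, mul_zero] at hww
          exact hww rfl
        rw [h1]
        field_simp
      have hfix' : ∀ j : Fin N, j.val < k + 1 →
          (rf J v * (rf J w * σ)).mulVec (e j) = e j := by
        intro j hj
        rw [← Matrix.mulVec_mulVec, ← Matrix.mulVec_mulVec]
        rcases Nat.lt_succ_iff_lt_or_eq.mp hj with hj | hj
        · rw [hfix j hj, rf_mulVec J w, show bf J w (e j) = 0 by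
            rw [hwd, bf_add_left, hsj j hj, hvj j hj, add_zero], mul_zero, zero_smul, sub_zero,
            rf_mulVec, hvj j hj, mul_zero, zero_smul, sub_zero]
        · have hj' : j = ⟨k, hkN⟩ := Fin.ext hj
          subst hj'
          rw [← hv, rf_mulVec J w, hcoef, one_smul]
          have h5 : σ.mulVec v - w = -v := by
            rw [hwd]; abel
          rw [h5, rf_mulVec, show bf J v (-v) = -bf J v v by
            rw [show (-v) = (-1 : K) • v by simp, bf_smul_right]; ring]
          have h6 : 2 * (bf J v v)⁻¹ * -bf J v v = -2 := by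
            field_simp
          rw [h6]
          ext i
          simp
          ring
      have hiso' : ∀ x y, bf J ((rf J v * (rf J w * σ)).mulVec x)
          ((rf J v * (rf J w * σ)).mulVec y) = bf J x y := by
        intro x y
        rw [← Matrix.mulVec_mulVec, ← Matrix.mulVec_mulVec, ← Matrix.mulVec_mulVec,
          ← Matrix.mulVec_mulVec, rf_iso hJ hvv, rf_iso hJ hww, hσ]
      obtain ⟨L, hL, hL2⟩ := ih (k + 1) (by omega) _ hiso' hfix'
      refine ⟨w :: v :: L, ?_, ?_⟩
      · intro u hu
        rcases List.mem_cons.mp hu with rfl | hu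
        · exact hww
        rcases List.mem_cons.mp hu with rfl | hu
        · exact hvv
        exact hL u hu
      · rw [List.map_cons, List.map_cons, List.prod_cons, List.prod_cons, ← hL2, ← mul_assoc,
          ← mul_assoc, mul_assoc (rf J w) (rf J v) (rf J v), rf_rf hvv, mul_one, ← mul_assoc,
          rf_rf hww, one_mul]
    · -- one reflection
      set w : Fin n → K := σ.mulVec v - v with hwd
      have hcoef : 2 * (bf J w w)⁻¹ * bf J w (σ.mulVec v) = 1 := by
        have h1 : bf J w w = 2 * bf J w (σ.mulVec v) := by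
          rw [hwd]
          simp only [bf_sub_left, bf_sub_right]
          rw [hss, hsv]
          ring
        have h3 : bf J w (σ.mulVec v) ≠ 0 := by
          intro h
          rw [h1, h, mul_zero] at hw
          exact hw rfl
        rw [h1]
        field_simp
      have hfix' : ∀ j : Fin N, j.val < k + 1 → (rf J w * σ).mulVec (e j) = e j := by
        intro j hj
        rw [← Matrix.mulVec_mulVec]
        rcases Nat.lt_succ_iff_lt_or_eq.mp hj with hj | hj
        · rw [hfix j hj, rf_mulVec J w, show bf J w (e j) = 0 by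
            rw [hwd, bf_sub_left, hsj j hj, hvj j hj, sub_zero], mul_zero, zero_smul, sub_zero]
        · have hj' : j = ⟨k, hkN⟩ := Fin.ext hj
          subst hj'
          rw [← hv, rf_mulVec J w, hcoef, one_smul, hwd]
          abel
      have hiso' : ∀ x y, bf J ((rf J w * σ).mulVec x) ((rf J w * σ).mulVec y) = bf J x y := by
        intro x y
        rw [← Matrix.mulVec_mulVec, ← Matrix.mulVec_mulVec, rf_iso hJ hw, hσ]
      obtain ⟨L, hL, hL2⟩ := ih (k + 1) (by omega) _ hiso' hfix'
      refine ⟨w :: L, ?_, ?_⟩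
      · intro u hu
        rcases List.mem_cons.mp hu with rfl | hu
        · exact hw
        exact hL u hu
      · rw [List.map_cons, List.prod_cons, ← hL2, ← mul_assoc, rf_rf hw, one_mul]

lemma det_L {J : Matrix (Fin n) (Fin n) K} (hJ : J.transpose = J) (L : List (Fin n → K))
    (hL : ∀ v ∈ L, bf J v v ≠ 0) : ((L.map (rf J)).prod).det = (-1) ^ L.length := by
  induction L with
  | nil => simp
  | cons v L ih =>
    rw [List.map_cons, List.prod_cons, Matrix.det_mul, rf_det hJ (hL v (by simp)),
      ih fun u hu => hL u (List.mem_cons_of_mem _ hu), List.length_cons, pow_succ]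
    ring

lemma mem_L (J : Matrix (Fin n) (Fin n) K) : ∀ (m : ℕ) (L : List (Fin n → K)), L.length = 2 * m →
    (∀ v ∈ L, bf J v v ≠ 0) → (L.map (rf J)).prod ∈ Submonoid.closure
      {y : Matrix (Fin n) (Fin n) K | ∃ (v v' : Fin n → K), v ⬝ᵥ J.mulVec v ≠ 0 ∧
      v' ⬝ᵥ J.mulVec v' ≠ 0 ∧
      y = (1 - (2 * (v ⬝ᵥ J.mulVec v)⁻¹) • (Matrix.vecMulVec v v * J)) *
        (1 - (2 * (v' ⬝ᵥ J.mulVec v')⁻¹) • (Matrix.vecMulVec v' v' * J))} := by
  intro m
  induction m with
  | zero =>
    intro L hL _
    have : L = [] := List.length_eq_zero_iff.mp (by omega)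
    subst this
    simp [one_mem]
  | succ m ih =>
    intro L hL hQ
    match L, hL, hQ with
    | [], hL, _ => simp at hL
    | [a], hL, _ => simp at hL; omega
    | a :: b :: L, hL, hQ =>
      rw [List.map_cons, List.map_cons, List.prod_cons, List.prod_cons, ← mul_assoc]
      refine mul_mem (Submonoid.subset_closure ⟨a, b, hQ a (by simp), hQ b (by simp), rfl⟩) ?_
      exact ih L (by simp at hL; omega) fun u hu =>
        hQ u (List.mem_cons_of_mem _ (List.mem_cons_of_mem _ hu))

theorem gso (K : Type) [Field K] [CharZero K] (n : ℕ) (J : Matrix (Fin n) (Fin n) K)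
    (hdet : IsUnit J.det) (hJ : J.transpose = J) (x : Matrix (Fin n) (Fin n) K)
    (hx : x.transpose * J * x = J) (hx1 : x.det = 1) :
    x ∈ Submonoid.closure {y : Matrix (Fin n) (Fin n) K | ∃ (v v' : Fin n → K),
      v ⬝ᵥ J.mulVec v ≠ 0 ∧ v' ⬝ᵥ J.mulVec v' ≠ 0 ∧
      y = (1 - (2 * (v ⬝ᵥ J.mulVec v)⁻¹) • (Matrix.vecMulVec v v * J)) *
        (1 - (2 * (v' ⬝ᵥ J.mulVec v')⁻¹) • (Matrix.vecMulVec v' v' * J))} := by
  have h2 : (2 : K) ≠ 0 := two_ne_zero
  have : Invertible (2 : K) := invertibleOfNonzero h2
  have hsym : (Matrix.toBilin' J).IsSymm := Matrix.isSymm_toBilin'_iff_isSymm.mpr hJ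
  obtain ⟨e, he⟩ := LinearMap.BilinForm.exists_orthogonal_basis
    (LinearMap.BilinForm.isSymm_iff.mp hsym)
  have hbf : ∀ v w, Matrix.toBilin' J v w = bf J v w := fun v w => Matrix.toBilin'_apply' J v w
  have he1 : ∀ i j, i ≠ j → bf J (e i) (e j) = 0 := fun i j hij => by
    rw [← hbf]
    exact he hij
  have he0 : ∀ i, bf J (e i) (e i) ≠ 0 := fun i h => by
    -- `e i` is orthogonal to everything
    have h1 : ∀ w, bf J (e i) w = 0 := by
      intro w
      have h3 : (Matrix.toBilin' J) (e i) = 0 := by
        apply e.ext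
        intro j
        rw [hbf, LinearMap.zero_apply]
        by_cases hij : i = j
        · subst hij; exact h
        · exact he1 i j hij
      rw [← hbf, h3]
      rfl
    have h4 : J.mulVec (e i) = 0 := by
      ext a
      have := h1 (Pi.single a 1)
      rw [bf_symm hJ] at this
      unfold bf at this
      simpa using this
    have h5 : e i = 0 := by
      have h6 := congrArg (J⁻¹).mulVec h4
      rwa [Matrix.mulVec_mulVec, Matrix.nonsing_inv_mul _ hdet, Matrix.one_mulVec,
        Matrix.mulVec_zero] at h6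
    exact e.ne_zero i h5
  have hiso : ∀ u w, bf J (x.mulVec u) (x.mulVec w) = bf J u w := by
    intro u w
    unfold bf
    rw [Matrix.mulVec_mulVec, ← Matrix.vecMul_transpose, ← Matrix.dotProduct_mulVec,
      Matrix.mulVec_mulVec, ← mul_assoc, hx]
  obtain ⟨L, hL, hL2⟩ := main h2 hJ e he1 he0 _ 0 (Nat.zero_add _) x hiso (fun j hj => by omega)
  have hd := det_L hJ L hL
  rw [← hL2, hx1] at hd
  have hev : Even L.length := by
    by_contra hodd
    rw [Nat.not_even_iff_odd] at hodd
    rw [hodd.neg_one_pow] at hd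
    have : (2 : K) = 0 := by linear_combination hd
    exact h2 this
  obtain ⟨m, hm⟩ := hev
  rw [hL2]
  exact mem_L J m L (by omega) hL

end GSOw

end REC
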