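import Pool.Agent.Helper27.REC.StmtsT
import Pool.Agent.Helper64.REC.GSOa

/-!
# Reciprocity, row GSO
-/

set_option autoImplicit false

namespace REC

theorem GSO : ST_GSO := fun K _ _ n J hdet hJ x hx hx1 => GSOw.gso K n J hdet hJ x hx hx1

end REC
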