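import Pool.Agent.Helper27.REC.StmtsT2
import Pool.Agent.Helper39.REC.XDN

/-!
# Reciprocity, row XDM: density for the algebra generated by the matrix entries
-/

set_option autoImplicit false

open scoped Classical
open NumberField Polynomial

namespace REC

open Pool.Agent.Helper13.ZL (Pl q)
open MU
open Pool.Agent.Helper72.REC.C2 (dens)

/-- the functions `ϑ ∘ m` with `m` continuous -/
def XDMmon {F : Type} [Field F] [NumberField F] {l : ℕ} [Fact l.Prime] {Ω : Type} [Field Ω]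
    (ϑ : ℤ_[l] →+* Ω) : Submonoid (Gal F → Ω) where
  carrier := {f | ∃ m : Gal F → ℤ_[l], Continuous m ∧ f = fun g => ϑ (m g)}
  one_mem' := ⟨fun _ => 1, continuous_const, by ext g; simp⟩
  mul_mem' := by
    rintro a b ⟨m, hm, rfl⟩ ⟨m', hm', rfl⟩
    exact ⟨fun g => m g * m' g, hm.mul hm', by ext g; simp⟩

theorem st_XDM : ST_XDM := by
  intro F _ _ l _ κ _ n r hr Ω _ _ ϑ f hf S hfr g
  obtain ⟨ϑ', hϑ'⟩ := xb_alg ϑ
  let _ : Algebra ℚ_[l] Ω := ϑ'.toAlgebra
  have hϑ : ∀ x : ℤ_[l], ϑ x = algebraMap ℚ_[l] Ω (x : ℚ_[l]) := fun x => (hϑ' x).symm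
  -- the generators are of the form `ϑ ∘ m`
  have hgen : ({f : Gal F → Ω | ∃ (i : κ) (x y : Fin (n i)), f = fun g =>
          ϑ ((r i g : Matrix (Fin (n i)) (Fin (n i)) ℤ_[l]) x y)} ∪
        {f : Gal F → Ω | f = fun g => cyv ϑ g}) ⊆ (XDMmon (F := F) ϑ : Set (Gal F → Ω)) := by
    rintro f (⟨i, x, y, rfl⟩ | rfl)
    · exact ⟨fun g => (r i g : Matrix (Fin (n i)) (Fin (n i)) ℤ_[l]) x y, xb_cont (hr i) x y, rfl⟩
    · refine ⟨fun g => ((cyc l F g⁻¹ : ℤ_[l]ˣ) : ℤ_[l]), ?_, rfl⟩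
      have hc : Continuous fun g : Gal F => ((cyc l F g : ℤ_[l]ˣ) : ℤ_[l]) :=
        Units.continuous_val.comp (cyclotomicCharacter.continuous l F (AlgebraicClosure F))
      exact hc.comp continuous_inv
  have hspan : f ∈ Submodule.span Ω (XDMmon (F := F) ϑ : Set (Gal F → Ω)) := by
    have h1 : f ∈ Subalgebra.toSubmodule (Algebra.adjoin Ω
        ({f : Gal F → Ω | ∃ (i : κ) (x y : Fin (n i)), f = fun g =>
          ϑ ((r i g : Matrix (Fin (n i)) (Fin (n i)) ℤ_[l]) x y)} ∪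
        {f : Gal F → Ω | f = fun g => cyv ϑ g})) := hf
    rw [Algebra.adjoin_eq_span] at h1
    exact Submodule.span_mono (Submonoid.closure_le.mpr hgen) h1
  have hcont : ∀ φ : Ω →ₗ[ℚ_[l]] ℚ_[l], Continuous fun g => φ (f g) := by
    refine Submodule.span_induction (p := fun (f : Gal F → Ω) _ => ∀ φ : Ω →ₗ[ℚ_[l]] ℚ_[l],
      Continuous fun g => φ (f g)) ?_ ?_ ?_ ?_ hspan
    · rintro _ ⟨m, hm, rfl⟩ φ
      have h2 : (fun g => φ (ϑ (m g))) = fun g => ((m g : ℤ_[l]) : ℚ_[l]) * φ 1 := by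
        ext g
        rw [hϑ, Algebra.algebraMap_eq_smul_one, map_smul, smul_eq_mul]
      rw [h2]
      exact (continuous_subtype_val.comp hm).mul continuous_const
    · intro φ
      simpa using continuous_const
    · intro a b _ _ ha hb φ
      have : (fun g => φ ((a + b) g)) = fun g => φ (a g) + φ (b g) := by
        ext g
        simp
      rw [this]
      exact (ha φ).add (hb φ)
    · intro ω a _ ha φ
      exact ha (φ.comp (LinearMap.mulLeft ℚ_[l] ω))
  rw [← Module.forall_dual_apply_eq_zero_iff ℚ_[l]]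
  intro φ
  refine dens MU.st_FRB S {g : Gal F | φ (f g) = 0} ?_ ?_ g
  · exact isClosed_eq (hcont φ) continuous_const
  · intro p 𝔓 k σ hp hpS hov hk hc
    rw [Set.mem_ofPred_eq, hfr p 𝔓 k σ hp hpS hov hk hc, map_zero]

end REC
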